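import Pool.Agent.Lib.MP_688fd0_co.SQ3.Small.H81.Base

/-!
EX: exchange of one straight label.
-/

set_option autoImplicit false

namespace Pool.Agent.Lib.MP_688fd0_co.SQ3.Small.H81

open Pool.Agent.Lib.MP_688fd0_co.OSF Pool.Agent.Lib.MP_688fd0_co.SQ2
open Pool.Agent.Lib.MP_688fd0_co.SQ3.Small

theorem ex : ExS := by
  intro Q _ B a e a' e' y₀ L he ha' he' hL
  obtain ⟨n, rfl⟩ : ∃ n, L = n + 1 := ⟨L - 1, by omega⟩
  have he0 : y₀ * B.q e = B.q a * y₀ := by
    have h := he 0
    rw [zpow_zero, one_mul, zero_add, zpow_one] at h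
    exact h
  have fX : B.fin 1 (List.replicate (n + 1) a) = B.q a ^ (n + 1) := by
    rw [fin_rep, one_mul]
  have sX : src B 1 (List.replicate (n + 1) a) = (List.range (n + 1)).map (fun i => B.q a ^ i) := by
    rw [src_rep]
    apply List.map_congr_left
    intro i _
    rw [one_mul]
  have fY : B.fin y₀ (List.replicate (n + 1) e) = B.q a ^ (n + 1) * y₀ := by
    have h := fin_up (B.q a) e y₀ he 0 (n + 1)
    rw [zpow_zero, one_mul, zero_add, zpow_natCast] at h
    exact h
  have sY : src B y₀ (List.replicate (n + 1) e) = (List.range (n + 1)).map (fun i => B.q a ^ i * y₀) := by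
    have h := src_up (B.q a) e y₀ he 0 (n + 1)
    rw [zpow_zero, one_mul] at h
    rw [h]
    apply List.map_congr_left
    intro i _
    rw [zero_add, zpow_natCast]
  have fX' : B.fin 1 (a' :: List.replicate n a) = B.q a ^ (n + 1) := by
    rw [← fX, List.replicate_succ, fin_cons, fin_cons, ha']
  have sX' : src B 1 (a' :: List.replicate n a) = (List.range (n + 1)).map (fun i => B.q a ^ i) := by
    rw [← sX, List.replicate_succ, src_cons, src_cons, ha']
  have fY' : B.fin y₀ (e' :: List.replicate n e) = B.q a ^ (n + 1) * y₀ := by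
    rw [← fY, List.replicate_succ, fin_cons, fin_cons, he']
  have sY' : src B y₀ (e' :: List.replicate n e) = (List.range (n + 1)).map (fun i => B.q a ^ i * y₀) := by
    rw [← sY, List.replicate_succ, src_cons, src_cons, he']
  refine ⟨⟨a' :: List.replicate n a, List.replicate (n + 1) e, fX', fY, ?_⟩,
    ⟨List.replicate (n + 1) a, e' :: List.replicate n e, fX, fY', ?_⟩, ?_⟩
  · rw [sX', sY]; exact List.Perm.refl _
  · rw [sX, sY']; exact List.Perm.refl _
  · intro R _ V
    refine ⟨?_, rfl, rfl, ?_⟩
    · show V.vol 1 (a' :: List.replicate n a) = V.vol 1 (List.replicate (n + 1) a) + (V.n a' - V.n a)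
      rw [List.replicate_succ, vol_cons, vol_cons, ha', map_one]; ring
    · show V.vol y₀ (e' :: List.replicate n e) = V.vol y₀ (List.replicate (n + 1) e) + V.chi y₀ * (V.n e' - V.n e)
      rw [List.replicate_succ, vol_cons, vol_cons, he']; ring

end Pool.Agent.Lib.MP_688fd0_co.SQ3.Small.H81
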