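import Pool.Agent.Lib.MP_688fd0_co.SQ3.Small.H81.Base

/-!
SLOT: composition of slots.
-/

set_option autoImplicit false

namespace Pool.Agent.Lib.MP_688fd0_co.SQ3.Small.H81

open Pool.Agent.Lib.MP_688fd0_co.OSF Pool.Agent.Lib.MP_688fd0_co.SQ2
open Pool.Agent.Lib.MP_688fd0_co.SQ3.Small

theorem slot : SlotS := by
  intro Q _ B A y₀ L l
  have key : B.fin 1 (l.flatMap Slot.lx) = A ^ (L * l.length) ∧
      B.fin y₀ (l.flatMap Slot.ly) = A ^ (L * l.length) * y₀ ∧
      (src B 1 (l.flatMap Slot.lx) ++ src B y₀ (l.flatMap Slot.ly)).Perm (strip A y₀ (L * l.length)) := by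
    induction l with
    | nil =>
      refine ⟨?_, ?_, ?_⟩
      · simp [Lb.fin]
      · simp [Lb.fin]
      · simp [src, strip]
    | cons s l ih =>
      obtain ⟨h1, h2, h3⟩ := ih
      have e : L * (s :: l).length = L + L * l.length := by rw [List.length_cons]; ring
      refine ⟨?_, ?_, ?_⟩
      · rw [List.flatMap_cons, fin_append, s.fx, e, pow_add]
        have h := fin_tr (B := B) (A ^ L) 1 (l.flatMap Slot.lx)
        rw [mul_one] at h
        rw [h, h1]
      · rw [List.flatMap_cons, fin_append, s.fy, e, pow_add, fin_tr, h2, mul_assoc]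
      · rw [List.flatMap_cons, List.flatMap_cons, src_append, src_append, s.fx, s.fy, e]
        have h := src_tr (B := B) (A ^ L) 1 (l.flatMap Slot.lx)
        rw [mul_one] at h
        rw [h, src_tr]
        refine List.Perm.trans ?_ (strip_add A y₀ L (L * l.length)).symm
        refine List.Perm.trans ?_ (s.perm.append (h3.map (A ^ L * ·)))
        rw [List.map_append, ← Multiset.coe_eq_coe]
        simp only [← Multiset.coe_add]
        abel
  refine ⟨key.1, key.2.1, key.2.2, ?_⟩
  intro R _ V hL
  clear key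
  have hA : ∀ n : ℕ, V.chi (A ^ (L * n)) = 1 := by
    intro n; rw [map_pow, pow_mul, hL, one_pow]
  induction l with
  | nil => exact ⟨rfl, rfl⟩
  | cons s l ih =>
    obtain ⟨h1, h2⟩ := ih
    have hA1 : V.chi (A ^ L) = 1 := by rw [map_pow, hL]
    constructor
    · rw [List.flatMap_cons, vol_append, s.fx, List.map_cons, List.sum_cons]
      have h := vol_tr V (A ^ L) 1 (l.flatMap Slot.lx)
      rw [mul_one] at h
      rw [h, hA1, one_mul, h1]
    · rw [List.flatMap_cons, vol_append, s.fy, List.map_cons, List.sum_cons, vol_tr, hA1, one_mul, h2]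

end Pool.Agent.Lib.MP_688fd0_co.SQ3.Small.H81
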