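import Pool.Agent.Lib.MP_688fd0_co.SQ3.Small.Iface

/-!
Small facts on paths and volumes, and strips.
-/

set_option autoImplicit false

namespace Pool.Agent.Lib.MP_688fd0_co.SQ3.Small.H81

open Pool.Agent.Lib.MP_688fd0_co.OSF Pool.Agent.Lib.MP_688fd0_co.SQ2
open Pool.Agent.Lib.MP_688fd0_co.SQ3.Small

universe u v w

variable {Q : Type u} [Group Q] {B : Lb.{u, v} Q}

section vol

variable {F : Type w} [CommRing F] (V : Vd B F)

theorem vol_append (x : Q) (l l' : List B.L) : V.vol x (l ++ l') = V.vol x l + V.vol (B.fin x l) l' := by
  induction l generalizing x with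
  | nil => show V.vol x l' = 0 + V.vol x l'; rw [zero_add]
  | cons g l ih =>
    show V.chi x * V.n g + V.vol (x * B.q g) (l ++ l') = V.chi x * V.n g + V.vol (x * B.q g) l + _
    rw [ih, add_assoc]; rfl

theorem vol_tr (y x : Q) (l : List B.L) : V.vol (y * x) l = V.chi y * V.vol x l := by
  induction l generalizing x with
  | nil => show (0 : F) = V.chi y * 0; rw [mul_zero]
  | cons g l ih =>
    show V.chi (y * x) * V.n g + V.vol (y * x * B.q g) l = V.chi y * (V.chi x * V.n g + V.vol (x * B.q g) l)
    rw [mul_assoc y, ih, map_mul]; ring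

theorem vol_cons (x : Q) (g : B.L) (l : List B.L) :
    V.vol x (g :: l) = V.chi x * V.n g + V.vol (x * B.q g) l := rfl

theorem vol_nil (x : Q) : V.vol x ([] : List B.L) = 0 := rfl

end vol

theorem fin_cons (x : Q) (g : B.L) (l : List B.L) : B.fin x (g :: l) = B.fin (x * B.q g) l := rfl

theorem src_cons (x : Q) (g : B.L) (l : List B.L) : src B x (g :: l) = x :: src B (x * B.q g) l := rfl

theorem fin_rep (a : B.L) (x : Q) (n : ℕ) : B.fin x (List.replicate n a) = x * B.q a ^ n := by
  induction n generalizing x with
  | zero => rw [pow_zero, mul_one]; rfl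
  | succ n ih =>
    rw [List.replicate_succ]
    show B.fin (x * B.q a) (List.replicate n a) = _
    rw [ih, pow_succ', mul_assoc]

theorem src_rep (a : B.L) (x : Q) (n : ℕ) :
    src B x (List.replicate n a) = (List.range n).map fun s => x * B.q a ^ s := by
  induction n generalizing x with
  | zero => rfl
  | succ n ih =>
    rw [List.replicate_succ, List.range_succ_eq_map, List.map_cons, List.map_map]
    show x :: src B (x * B.q a) (List.replicate n a) = _
    rw [ih, pow_zero, mul_one]
    congr 1
    apply List.map_congr_left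
    intro s _
    simp only [Function.comp]
    rw [pow_succ', mul_assoc]

/-- Going up on the second line. -/
theorem fin_up (A : Q) (e : B.L) (y₀ : Q) (he : ∀ j : ℤ, A ^ j * y₀ * B.q e = A ^ (j + 1) * y₀) (j : ℤ) (n : ℕ) :
    B.fin (A ^ j * y₀) (List.replicate n e) = A ^ (j + n) * y₀ := by
  induction n generalizing j with
  | zero => rw [Nat.cast_zero, add_zero]; rfl
  | succ n ih =>
    rw [List.replicate_succ]
    show B.fin (A ^ j * y₀ * B.q e) (List.replicate n e) = _
    rw [he, ih]
    congr 2
    push_cast; ring

theorem src_up (A : Q) (e : B.L) (y₀ : Q) (he : ∀ j : ℤ, A ^ j * y₀ * B.q e = A ^ (j + 1) * y₀) (j : ℤ) (n : ℕ) :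
    src B (A ^ j * y₀) (List.replicate n e) = (List.range n).map fun s => A ^ (j + (s : ℕ)) * y₀ := by
  induction n generalizing j with
  | zero => rfl
  | succ n ih =>
    rw [List.replicate_succ, List.range_succ_eq_map, List.map_cons, List.map_map]
    show (A ^ j * y₀) :: src B (A ^ j * y₀ * B.q e) (List.replicate n e) = _
    rw [he, ih, Nat.cast_zero, add_zero]
    congr 1
    apply List.map_congr_left
    intro s _
    simp only [Function.comp]
    congr 2
    push_cast; ring

theorem strip_add {Q : Type} [Group Q] (A y₀ : Q) (L m : ℕ) :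
    (strip A y₀ (L + m)).Perm (strip A y₀ L ++ (strip A y₀ m).map (A ^ L * ·)) := by
  unfold strip
  have h1 : (List.range (L + m)).map (fun i => A ^ i) =
      (List.range L).map (fun i => A ^ i) ++ ((List.range m).map (fun i => A ^ i)).map (A ^ L * ·) := by
    rw [List.range_add, List.map_append, List.map_map, List.map_map]
    congr 1
    apply List.map_congr_left
    intro i _
    simp only [Function.comp]
    rw [pow_add]
  have h2 : (List.range (L + m)).map (fun i => A ^ i * y₀) =
      (List.range L).map (fun i => A ^ i * y₀) ++ ((List.range m).map (fun i => A ^ i * y₀)).map (A ^ L * ·) := by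
    rw [List.range_add, List.map_append, List.map_map, List.map_map]
    congr 1
    apply List.map_congr_left
    intro i _
    simp only [Function.comp]
    rw [pow_add, mul_assoc]
  rw [h1, h2, List.map_append]
  rw [← Multiset.coe_eq_coe]
  simp only [← Multiset.coe_add]
  abel

end Pool.Agent.Lib.MP_688fd0_co.SQ3.Small.H81
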